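import Pool.Agent.L5helper34.OC.All
import Pool.Agent.L5helper34.OP.CoreP
import Pool.Agent.L5helper34.OP.AllP
import Pool.Agent.L5helper46.OC.Arc

/-!
# One conical projection puts an arc on a normal rational curve (odd characteristic)

For `q` odd the known theorems on `n`-arcs of `PG(k-1,q)`, `n ≤ q`, lying on normal rational curves
project the arc from its subsets of `k - 3` points to the plane, use that plane arcs of more than
`m'(2,q)` points (about `q - √q / 4`, or `q - √q`) lie on conics, and glue: two conical projections
are needed. Here `q = p^h` with `p` odd, and ONE planar projection contained in a conic is enough, for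
all arcs of at least `(1 - 1 / p) q + k + 1` points (`2 q / 3 + k - 1` points if `p = 3`).

The proof. Let `(s, s², …)` be the projection and `τ(s)` the coordinate belonging to one of the
vertices; the arc condition says that the third divided differences of `τ` on the set `K` of the
parameters do not vanish, i.e. for `a, b` in `K` the function `z ↦ τ[a, b, z]` is injective. Let
`q = p m`, `α = a^m`, `t_a = τ(a)^m`. For `Y ⊆ K` with `P m + 3` elements, `P < p`, the Lagrange
identities with the exponents `i m`, `i ≤ P`, for the functions `z ↦ nd(a, z)` over `F(v)` (values at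
`v` of an interpolation), the Frobenius map `x ↦ x^m`, and a comparison of degrees give relations for
the `t_a`: for `P = p - 1` the divided differences of order `(p-1) m + 2` of the functions `α^k t^l`,
`k + 2 l < 2 p`, vanish, so these functions are polynomials of degree at most `(p-1) m + 1` on `K`;
for `P = p - 2` we find
`∑ (α_a - α_b)^(p-1) (t_a - t_b)² (α_a^i α_b^k + α_a^k α_b^i) / (∏ (a - z) ∏ (b - z)) = 0`.
Since the latter hold for all `Y`, they become relations between products of linear forms on the
space of the polynomials of degree at most `|K| - (p-2) m - 3`, and this leaves two possibilities: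
`t = Ω(α)` or `t = A(α) / (b - μ) + Ω(α)` on `K`. The linear relations for `α^k t^l` then show that
`τ(s) = l s³ + quadratic` or `τ(s) = l / (s - x) + quadratic`. So the projections from all `k - 4` of
the `k - 3` vertices lie on twisted cubics; then we glue. For `p = 3` the quadratic relations alone
are enough, and this gives the better bound there.
-/

set_option autoImplicit false

namespace Pool.Agent.Results.MP_8a9ebc_co.OneConicalProjection

/-- The points of the normal rational curve of `PG(k-1, F)`, indexed by the projective line
`F ∪ {∞}`: `(1, t, …, t^{k-1})` for `t` in `F`, and `(0, …, 0, 1)`. For `k = 3` this is a conic. -/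
def curve (F : Type) [Field F] (k : ℕ) : Option F → (Fin k → F)
  | some t => fun i => t ^ (i : ℕ)
  | none => fun i => if (i : ℕ) + 1 = k then 1 else 0

theorem curve_eq (F : Type) [Field F] (k : ℕ) (t : Option F) :
    curve F k t = Pool.Agent.L5helper46.OC.curve F k t := by
  cases t <;> rfl

/-- Let `F` be a field with `q = p^h` elements, `p` odd, let `k ≥ 4`, and let `n ≥ (1 - 1/p) q + k + 1`
(`n ≥ 2 q / 3 + k - 1` and `q ≥ 9` if `p = 3`). Let every `k` of the vectors `v 1, …, v n` of `F^k` be
linearly independent (an `n`-arc of `PG(k-1,q)`). Suppose that for ONE set `T` of `k - 3` of them the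
projection from `T` (a linear map `π` of `F^k` onto `F^3` which kills the `v i` with `i` in `T`) maps
the other points into a conic. Then the arc is contained in a normal rational curve: up to a linear
automorphism of `F^k` and non-zero scalars the `v i` are distinct points of the standard normal
rational curve. -/
theorem result (F : Type) [Field F] [Fintype F] (p : ℕ) [CharP F p] (k n : ℕ) (hk : 4 ≤ k)
    (hn : (5 ≤ p ∧ (p - 1) * Fintype.card F + p * (k + 1) ≤ p * n) ∨
      (p = 3 ∧ 9 ≤ Fintype.card F ∧ 2 * Fintype.card F + 3 * k ≤ 3 * n + 3))
    (v : Fin n → (Fin k → F))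
    (hv : ∀ s : Finset (Fin n), s.card = k → LinearIndependent F (fun i : s => v i))
    (T : Finset (Fin n)) (hT : T.card + 3 = k)
    (π : (Fin k → F) →ₗ[F] (Fin 3 → F)) (hs : Function.Surjective π)
    (h0 : ∀ i ∈ T, π (v i) = 0)
    (hc : ∀ i, i ∉ T → ∃ (c : F) (t : Option F), c ≠ 0 ∧ π (v i) = c • curve F 3 t) :
    ∃ (e : Fin n → Option F) (L : (Fin k → F) ≃ₗ[F] (Fin k → F)) (c : Fin n → F),
      Function.Injective e ∧ ∀ i, c i ≠ 0 ∧ v i = c i • L (curve F k (e i)) := by
  classical
  have hpf : Fact p.Prime := ⟨CharP.char_is_prime F p⟩
  obtain ⟨r, -, hr⟩ := FiniteField.card F p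
  obtain ⟨j, hj⟩ : ∃ j, (r : ℕ) = j + 1 := ⟨(r : ℕ) - 1, by have := r.pos; omega⟩
  rw [hj] at hr
  have hq : Fintype.card F = p * p ^ j := by rw [hr, pow_succ]; ring
  have hkn : k + 2 ≤ n := by
    rcases hn with ⟨hp5, hn⟩ | ⟨hp3, hq9, hn⟩
    · have h1 : 1 * p ≤ Fintype.card F := by
        rw [hq, mul_comm]
        exact Nat.mul_le_mul_left p (Nat.one_le_pow j p (by omega))
      have h2 : 1 * Fintype.card F ≤ (p - 1) * Fintype.card F := Nat.mul_le_mul_right _ (by omega)
      have h3 : p * (k + 2) ≤ p * n := by
        calc p * (k + 2) = p + p * (k + 1) := by ring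
          _ ≤ (p - 1) * Fintype.card F + p * (k + 1) := by omega
          _ ≤ p * n := hn
      exact Nat.le_of_mul_le_mul_left h3 (by omega)
    · omega
  obtain ⟨e, L, c, he, hL⟩ := Pool.Agent.L5helper46.OC.arc_of_code hk hkn v hv T hT π hs h0
    (fun i hi => by
      obtain ⟨c, t, h1, h2⟩ := hc i hi
      exact ⟨c, t, h1, by rw [h2, curve_eq]⟩)
    (fun C hC hR => by
      rcases hn with ⟨hp5, hn⟩ | ⟨hp3, hq9, hn⟩
      · have hn' : (p - 1) * p ^ j + (k + 1) ≤ n := by
          have h3 : p * ((p - 1) * p ^ j + (k + 1)) ≤ p * n := by
            rw [hq] at hn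
            calc p * ((p - 1) * p ^ j + (k + 1)) = (p - 1) * (p * p ^ j) + p * (k + 1) := by ring
              _ ≤ p * n := hn
          exact Nat.le_of_mul_le_mul_left h3 (by omega)
        by_cases hj1 : 1 ≤ j
        · have hmp : p ≤ p ^ j := by
            calc p = p ^ 1 := (pow_one p).symm
              _ ≤ p ^ j := Nat.pow_le_pow_right (by omega) hj1
          have hqm : Fintype.card F = (p - 1) * p ^ j + p ^ j := by
            rw [hq]
            conv_lhs => rw [show p = (p - 1) + 1 by omega]
            rw [add_mul, one_mul, show p - 1 + 1 = p by omega]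
          have h2 : (2 : F) ≠ 0 := by
            intro e
            have h1 : ((2 : ℕ) : F) = 0 := by exact_mod_cast e
            rw [CharP.cast_eq_zero_iff F p] at h1
            have := Nat.le_of_dvd (by norm_num) h1
            omega
          have hpos : 0 < (p - 1) * p ^ j := Nat.mul_pos (by omega) (by omega)
          exact Pool.Agent.L5helper34.OP.all (N := (p - 1) * p ^ j + 4)
            (fun K hK τ hτ => Pool.Agent.L5helper34.OP.core_p hp5 hr hj1 hK hτ) (by omega)
            (by omega) h2 hC hT (by omega) hR
        · exfalso
          have hj0 : j = 0 := by omega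
          subst hj0
          have h1 : Pool.Agent.N345.Rs.IsRS (k - T.card - 1) T C := hR
          have h2 := Pool.Agent.N345.Rs.IsRS.length_le h1
          rw [pow_zero, mul_one] at hn' hq
          omega
      · subst hp3
        have hj1 : 1 ≤ j := by
          by_contra hcon
          have : j = 0 := by omega
          subst this
          rw [hr] at hq9
          norm_num at hq9
        have hn' : 2 * 3 ^ j + 2 + T.card ≤ n := by omega
        exact Pool.Agent.L5helper34.OC.all hr hj1 hC hT hn' hR)
  refine ⟨e, L, c, he, fun i => ⟨(hL i).1, ?_⟩⟩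
  rw [curve_eq]
  exact (hL i).2

end Pool.Agent.Results.MP_8a9ebc_co.OneConicalProjection
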